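import Mathlib

/-!
# DMVP on periodic temporal caterpillars: the combinatorial core of the reduction from SAT

`N` variables, `m` clauses; `cl j i b` says that the clause `j` contains the literal saying
that the variable `i` has the value `b`.  There are `2 N` zones of `2 m + 4` blocks each; a block consists
of `2 R + 1` time steps, `R = 3 N + m`, and a leaf edge can only be crossed in the last step of a
block.  Zone `2 i` belongs to the literal `x_i`, zone `2 i + 1` to the literal `¬ x_i`.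
-/

set_option autoImplicit false

namespace Pool.Agent.T2H97.CE

/-- number of leaves -/
def RR (N m : ℕ) : ℕ := 3 * N + m

/-- the deadline -/
def tt (N m : ℕ) : ℕ := 2 * N * (2 * m + 4) * (2 * RR N m + 1) + RR N m

/-- the leaf edge `ℓ` is present in the last step of the block `k` -/
def pres (N m : ℕ) (cl : ℕ → ℕ → Bool → Bool) (ℓ k : ℕ) : Bool :=
  if ℓ < N then
    decide (k / (2 * m + 4) / 2 = ℓ) &&
      (decide (k % (2 * m + 4) = 0) || decide (k % (2 * m + 4) = 2 * m + 1))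
  else if ℓ < N + m then
    (if k / (2 * m + 4) % 2 = 0 then cl (ℓ - N) (k / (2 * m + 4) / 2) true
      else cl (ℓ - N) (k / (2 * m + 4) / 2) false) &&
      (decide (k % (2 * m + 4) = 1 + 2 * (ℓ - N)) || decide (k % (2 * m + 4) = 2 + 2 * (ℓ - N)))
  else
    decide (k / (2 * m + 4) = ℓ - N - m) &&
      (decide (k % (2 * m + 4) = 2 * m + 2) || decide (k % (2 * m + 4) = 2 * m + 3))

/-- the leaf edge `ℓ` is present at time `τ` (of one period) -/
def ev (N m : ℕ) (cl : ℕ → ℕ → Bool → Bool) (ℓ τ : ℕ) : Bool :=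
  decide (τ = tt N m) ||
    (decide (τ % (2 * RR N m + 1) = 2 * RR N m) && pres N m cl ℓ (τ / (2 * RR N m + 1)))

/-- adjacency: the spine `0, ..., R` and the leaves `R + 1 + ℓ`, `ℓ < R` -/
def adjb (R : ℕ) (E : ℕ → Bool) (u v : ℕ) : Bool :=
  (decide (u + 1 = v) && decide (v ≤ R)) || ((decide (v + 1 = u) && decide (u ≤ R)) ||
    ((decide (v = R + 1 + u) && (decide (u < R) && E u)) ||
      (decide (u = R + 1 + v) && (decide (v < R) && E v))))

theorem adjb_iff {R : ℕ} {E : ℕ → Bool} {u v : ℕ} : adjb R E u v = true ↔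
    ((u + 1 = v ∧ v ≤ R) ∨ (v + 1 = u ∧ u ≤ R) ∨ (v = R + 1 + u ∧ u < R ∧ E u = true) ∨
      (u = R + 1 + v ∧ v < R ∧ E v = true)) := by
  unfold adjb
  simp only [Bool.or_eq_true, Bool.and_eq_true, decide_eq_true_eq]

/-- satisfiability -/
def SatC (N m : ℕ) (cl : ℕ → ℕ → Bool → Bool) : Prop :=
  ∃ x : ℕ → Bool, ∀ j < m, ∃ i < N, ∃ b, cl j i b = true ∧ x i = b

/-- the walk `x` visits all vertices by the deadline -/
def CovC (N m : ℕ) (cl : ℕ → ℕ → Bool → Bool) : Prop :=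
  ∃ x : ℕ → ℕ, x 0 = 0 ∧
    (∀ τ < tt N m, x (τ + 1) = x τ ∨
      adjb (RR N m) (fun ℓ => ev N m cl ℓ τ) (x τ) (x (τ + 1)) = true) ∧
    ∀ v < 2 * RR N m + 1, ∃ τ ≤ tt N m, x τ = v

/-! ### Satisfiable formulas give walks -/

section fwd

variable (N m : ℕ) (cl : ℕ → ℕ → Bool → Bool)

/-- there is a walk to `v` at time `τ` that has visited the set `C` -/
def RW (τ v : ℕ) (C : Set ℕ) : Prop :=
  ∃ x : ℕ → ℕ, x 0 = 0 ∧
    (∀ σ < τ, x (σ + 1) = x σ ∨
      adjb (RR N m) (fun ℓ => ev N m cl ℓ σ) (x σ) (x (σ + 1)) = true) ∧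
    x τ = v ∧ ∀ w ∈ C, ∃ σ ≤ τ, x σ = w

variable {N m cl}

theorem RW.step {τ u v : ℕ} {C : Set ℕ} (h : RW N m cl τ u C)
    (hv : v = u ∨ adjb (RR N m) (fun ℓ => ev N m cl ℓ τ) u v = true) :
    RW N m cl (τ + 1) v (insert v C) := by
  obtain ⟨x, h0, h1, h2, h3⟩ := h
  refine ⟨fun σ => if σ ≤ τ then x σ else v, by simp [h0], ?_, by simp, ?_⟩
  · intro σ hσ
    by_cases hs : σ < τ
    · have e1 : (if σ + 1 ≤ τ then x (σ + 1) else v) = x (σ + 1) := if_pos (by omega)
      have e2 : (if σ ≤ τ then x σ else v) = x σ := if_pos (by omega)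
      simp only [e1, e2]
      exact h1 σ hs
    · have hs' : σ = τ := by omega
      subst hs'
      have e1 : (if σ + 1 ≤ σ then x (σ + 1) else v) = v := if_neg (by omega)
      have e2 : (if σ ≤ σ then x σ else v) = u := by rw [if_pos le_rfl, h2]
      simp only [e1, e2]
      exact hv
  · intro w hw
    rcases hw with rfl | hw
    · exact ⟨τ + 1, le_rfl, by simp⟩
    · obtain ⟨σ, hσ, rfl⟩ := h3 w hw
      exact ⟨σ, by omega, by simp [hσ]⟩

theorem RW.mono {τ u : ℕ} {C C' : Set ℕ} (h : RW N m cl τ u C) (hC : C' ⊆ C) :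
    RW N m cl τ u C' := by
  obtain ⟨x, h0, h1, h2, h3⟩ := h
  exact ⟨x, h0, h1, h2, fun w hw => h3 w (hC hw)⟩

theorem RW.wait {τ u : ℕ} {C : Set ℕ} (h : RW N m cl τ u C) : ∀ d, RW N m cl (τ + d) u C := by
  intro d
  induction d with
  | zero => exact h
  | succ d ih => exact (ih.step (Or.inl rfl)).mono (Set.subset_insert _ _)

theorem RW.wait' {τ τ' u : ℕ} {C : Set ℕ} (h : RW N m cl τ u C) (hτ : τ ≤ τ') :
    RW N m cl τ' u C := by
  obtain ⟨d, rfl⟩ := Nat.exists_eq_add_of_le hτ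
  exact h.wait d

theorem RW.move {C : Set ℕ} : ∀ (d u v : ℕ), u ≤ RR N m → v ≤ RR N m → u ≤ v + d →
    v ≤ u + d → ∀ {τ : ℕ}, RW N m cl τ u C → RW N m cl (τ + d) v C := by
  intro d
  induction d with
  | zero =>
    intro u v _ _ h1 h2 τ h
    have : u = v := by omega
    subst this
    exact h
  | succ d ih =>
    intro u v hu hv h1 h2 τ h
    by_cases h3 : u < v
    · have h4 : RW N m cl (τ + 1) (u + 1) C :=
        (h.step (v := u + 1) (Or.inr (adjb_iff.2 (Or.inl ⟨rfl, by omega⟩)))).mono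
          (Set.subset_insert _ _)
      have h5 := ih (u + 1) v (by omega) hv (by omega) (by omega) h4
      rwa [show τ + 1 + d = τ + (d + 1) by omega] at h5
    · by_cases h6 : v < u
      · have h4 : RW N m cl (τ + 1) (u - 1) C :=
          (h.step (v := u - 1) (Or.inr (adjb_iff.2 (Or.inr (Or.inl ⟨by omega, hu⟩))))).mono
            (Set.subset_insert _ _)
        have h5 := ih (u - 1) v (by omega) hv (by omega) (by omega) h4
        rwa [show τ + 1 + d = τ + (d + 1) by omega] at h5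
      · have h7 : u = v := by omega
        subst h7
        exact h.wait (d + 1)

theorem RW.sweep : ∀ j, j ≤ RR N m → RW N m cl j j {w | w ≤ j} := by
  intro j
  induction j with
  | zero =>
    intro _
    refine ⟨fun _ => 0, rfl, fun σ hσ => absurd hσ (by omega), rfl, fun w hw => ⟨0, le_rfl, ?_⟩⟩
    have : w ≤ 0 := hw
    show 0 = w
    omega
  | succ j ih =>
    intro hj
    refine ((ih (by omega)).step (v := j + 1) (Or.inr (adjb_iff.2 (Or.inl ⟨rfl, hj⟩)))).mono ?_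
    intro w hw
    have hw' : w ≤ j + 1 := hw
    rcases Nat.lt_or_ge j w with h | h
    · left; omega
    · right; exact h

variable (N m cl) in
/-- the state at the beginning of the block `q` -/
def St (q : ℕ) (C : Set ℕ) : Prop :=
  ∃ u ≤ RR N m, ∃ T ≤ q * (2 * RR N m + 1) + RR N m, RW N m cl T u C

theorem St.le {q q' : ℕ} {C : Set ℕ} (h : St N m cl q C) (hq : q ≤ q') : St N m cl q' C := by
  obtain ⟨u, hu, T, hT, h⟩ := h
  exact ⟨u, hu, T, hT.trans (Nat.add_le_add_right (Nat.mul_le_mul_right _ hq) _), h⟩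

theorem ev_slot {ℓ k : ℕ} (h : pres N m cl ℓ k = true) :
    ev N m cl ℓ (k * (2 * RR N m + 1) + 2 * RR N m) = true := by
  unfold ev
  have h1 : (k * (2 * RR N m + 1) + 2 * RR N m) % (2 * RR N m + 1) = 2 * RR N m := by
    rw [Nat.add_comm, Nat.add_mul_mod_self_right, Nat.mod_eq_of_lt (by omega)]
  have h2 : (k * (2 * RR N m + 1) + 2 * RR N m) / (2 * RR N m + 1) = k := by
    rw [Nat.add_comm, Nat.add_mul_div_right _ _ (by omega), Nat.div_eq_of_lt (by omega)]
    omega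
  rw [h1, h2, h]
  simp

/-- one job: visit the leaf `ℓ` between the blocks `a` and `b` -/
theorem St.job {q a b ℓ : ℕ} {C : Set ℕ} (h : St N m cl q C) (hq : q ≤ a) (hab : a < b)
    (hℓ : ℓ < RR N m) (ha : pres N m cl ℓ a = true) (hb : pres N m cl ℓ b = true) :
    St N m cl (b + 1) (insert (RR N m + 1 + ℓ) C) := by
  obtain ⟨u, hu, T, hT, h⟩ := h
  have h1 : q * (2 * RR N m + 1) ≤ a * (2 * RR N m + 1) := Nat.mul_le_mul_right _ hq
  have h2 : (a + 1) * (2 * RR N m + 1) ≤ b * (2 * RR N m + 1) := Nat.mul_le_mul_right _ hab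
  rw [Nat.add_mul, Nat.one_mul] at h2
  -- go to the spine vertex `ℓ`
  obtain ⟨d, hd⟩ := Nat.exists_eq_add_of_le (show T ≤ a * (2 * RR N m + 1) + 2 * RR N m by omega)
  have h3 : RW N m cl (a * (2 * RR N m + 1) + 2 * RR N m) ℓ C := by
    rw [hd]
    exact RW.move d u ℓ hu hℓ.le (by omega) (by omega) h
  have h4 := h3.step (v := RR N m + 1 + ℓ)
    (Or.inr (adjb_iff.2 (Or.inr (Or.inr (Or.inl ⟨rfl, hℓ, ev_slot ha⟩)))))
  have h5 : RW N m cl (b * (2 * RR N m + 1) + 2 * RR N m) (RR N m + 1 + ℓ)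
      (insert (RR N m + 1 + ℓ) C) := h4.wait' (by omega)
  have h6 := h5.step (v := ℓ)
    (Or.inr (adjb_iff.2 (Or.inr (Or.inr (Or.inr ⟨rfl, hℓ, ev_slot hb⟩)))))
  refine ⟨ℓ, hℓ.le, b * (2 * RR N m + 1) + 2 * RR N m + 1, ?_, h6.mono (Set.subset_insert _ _)⟩
  rw [Nat.add_mul, Nat.one_mul]
  omega

theorem zone_div {z o : ℕ} (ho : o < 2 * m + 4) : (z * (2 * m + 4) + o) / (2 * m + 4) = z := by
  rw [Nat.add_comm, Nat.add_mul_div_right _ _ (by omega), Nat.div_eq_of_lt ho]
  omega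

theorem zone_mod {z o : ℕ} (ho : o < 2 * m + 4) : (z * (2 * m + 4) + o) % (2 * m + 4) = o := by
  rw [Nat.add_comm, Nat.add_mul_mod_self_right, Nat.mod_eq_of_lt ho]

theorem pres_X {z o : ℕ} (ho : o = 0 ∨ o = 2 * m + 1) (hz : z < 2 * N) :
    pres N m cl (z / 2) (z * (2 * m + 4) + o) = true := by
  unfold pres
  have h1 : o < 2 * m + 4 := by omega
  rw [zone_div h1, zone_mod h1, if_pos (by omega)]
  simp only [Bool.and_eq_true, Bool.or_eq_true, decide_eq_true_eq]
  exact ⟨trivial, ho⟩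

theorem pres_Y {z o c : ℕ} (ho : o = 1 + 2 * c ∨ o = 2 + 2 * c) (hc : c < m)
    (h : cl c (z / 2) (decide (z % 2 = 0)) = true) :
    pres N m cl (N + c) (z * (2 * m + 4) + o) = true := by
  unfold pres
  have h1 : o < 2 * m + 4 := by omega
  rw [zone_div h1, zone_mod h1, if_neg (by omega),
    if_pos (by omega), Nat.add_sub_cancel_left]
  rw [Bool.and_eq_true, Bool.or_eq_true]
  refine ⟨?_, by simpa only [decide_eq_true_eq] using ho⟩
  by_cases hz : z % 2 = 0
  · rw [if_pos (by exact hz)]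
    rw [decide_eq_true hz] at h
    exact h
  · rw [if_neg (by exact hz)]
    rw [decide_eq_false hz] at h
    exact h

theorem pres_S {z o : ℕ} (ho : o = 2 * m + 2 ∨ o = 2 * m + 3) :
    pres N m cl (N + m + z) (z * (2 * m + 4) + o) = true := by
  unfold pres
  have h1 : o < 2 * m + 4 := by omega
  rw [zone_div h1, zone_mod h1, if_neg (by omega),
    if_neg (by omega)]
  rw [Bool.and_eq_true, Bool.or_eq_true, decide_eq_true_eq, decide_eq_true_eq, decide_eq_true_eq]
  exact ⟨by omega, ho⟩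

/-- the leaves visited in the zone `z` -/
def zoneSet (N m : ℕ) (cl : ℕ → ℕ → Bool → Bool) (x : ℕ → Bool) (z : ℕ) : Set ℕ :=
  {w | w = RR N m + 1 + (N + m + z) ∨ (x (z / 2) ≠ decide (z % 2 = 0) ∧ w = RR N m + 1 + z / 2) ∨
    (x (z / 2) = decide (z % 2 = 0) ∧ ∃ c < m, cl c (z / 2) (decide (z % 2 = 0)) = true ∧
      w = RR N m + 1 + (N + c))}

theorem St.clauses {z : ℕ} {C : Set ℕ} (h : St N m cl (z * (2 * m + 4)) C) : ∀ c ≤ m,
    St N m cl (z * (2 * m + 4) + (1 + 2 * c)) (C ∪ {w | ∃ c' < c,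
      cl c' (z / 2) (decide (z % 2 = 0)) = true ∧ w = RR N m + 1 + (N + c')}) := by
  intro c
  induction c with
  | zero =>
    intro _
    obtain ⟨u, hu, T, hT, h'⟩ := h.le (q' := z * (2 * m + 4) + (1 + 2 * 0)) (by omega)
    refine ⟨u, hu, T, hT, h'.mono ?_⟩
    rintro w (hw | ⟨c', hc', _⟩)
    · exact hw
    · omega
  | succ c ih =>
    intro hc
    have ih' := ih (by omega)
    by_cases hcl : cl c (z / 2) (decide (z % 2 = 0)) = true
    · have h1 := ih'.job (a := z * (2 * m + 4) + (1 + 2 * c)) (b := z * (2 * m + 4) + (2 + 2 * c))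
        (ℓ := N + c) le_rfl (by omega) (by unfold RR; omega)
        (pres_Y (Or.inl rfl) (by omega) hcl) (pres_Y (Or.inr rfl) (by omega) hcl)
      obtain ⟨u, hu, T, hT, h'⟩ := h1.le
        (q' := z * (2 * m + 4) + (1 + 2 * (c + 1))) (by omega)
      refine ⟨u, hu, T, hT, h'.mono ?_⟩
      rintro w (hw | ⟨c', hc', hc2, rfl⟩)
      · exact Or.inr (Or.inl hw)
      · by_cases he : c' = c
        · left; rw [he]
        · exact Or.inr (Or.inr ⟨c', by omega, hc2, rfl⟩)
    · obtain ⟨u, hu, T, hT, h'⟩ := ih'.le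
        (q' := z * (2 * m + 4) + (1 + 2 * (c + 1))) (by omega)
      refine ⟨u, hu, T, hT, h'.mono ?_⟩
      rintro w (hw | ⟨c', hc', hc2, rfl⟩)
      · exact Or.inl hw
      · refine Or.inr ⟨c', ?_, hc2, rfl⟩
        by_contra hcon
        have : c' = c := by omega
        rw [this] at hc2
        exact hcl hc2

theorem St.zone {z : ℕ} {C : Set ℕ} (x : ℕ → Bool) (hz : z < 2 * N)
    (h : St N m cl (z * (2 * m + 4)) C) :
    St N m cl ((z + 1) * (2 * m + 4)) (C ∪ zoneSet N m cl x z) := by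
  have key : St N m cl (z * (2 * m + 4) + (2 * m + 2)) (C ∪ {w |
      (x (z / 2) ≠ decide (z % 2 = 0) ∧ w = RR N m + 1 + z / 2) ∨
      (x (z / 2) = decide (z % 2 = 0) ∧ ∃ c < m, cl c (z / 2) (decide (z % 2 = 0)) = true ∧
      w = RR N m + 1 + (N + c))}) := by
    by_cases hx : x (z / 2) = decide (z % 2 = 0)
    · obtain ⟨u, hu, T, hT, h'⟩ := (h.clauses m le_rfl).le
        (q' := z * (2 * m + 4) + (2 * m + 2)) (by omega)
      refine ⟨u, hu, T, hT, h'.mono ?_⟩
      rintro w (hw | ⟨hw, _⟩ | ⟨_, hw⟩)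
      · exact Or.inl hw
      · exact absurd hx hw
      · exact Or.inr hw
    · have h1 := h.job (a := z * (2 * m + 4) + 0) (b := z * (2 * m + 4) + (2 * m + 1))
        (ℓ := z / 2) le_rfl (by omega) (by unfold RR; omega)
        (pres_X (Or.inl rfl) hz) (pres_X (Or.inr rfl) hz)
      obtain ⟨u, hu, T, hT, h'⟩ := h1.le (q' := z * (2 * m + 4) + (2 * m + 2)) (by omega)
      refine ⟨u, hu, T, hT, h'.mono ?_⟩
      rintro w (hw | ⟨_, hw⟩ | ⟨hw, _⟩)
      · exact Or.inr hw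
      · exact Or.inl hw
      · exact absurd hw hx
  have h1 := key.job (a := z * (2 * m + 4) + (2 * m + 2)) (b := z * (2 * m + 4) + (2 * m + 3))
    (ℓ := N + m + z) le_rfl (by omega) (by unfold RR; omega)
    (pres_S (Or.inl rfl)) (pres_S (Or.inr rfl))
  obtain ⟨u, hu, T, hT, h'⟩ := h1.le (q' := (z + 1) * (2 * m + 4)) (by
    rw [Nat.add_mul]; omega)
  refine ⟨u, hu, T, hT, h'.mono ?_⟩
  rintro w (hw | hw | hw)
  · exact Or.inr (Or.inl hw)
  · exact Or.inl hw
  · exact Or.inr (Or.inr hw)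

theorem St.zones (x : ℕ → Bool) : ∀ z ≤ 2 * N, St N m cl (z * (2 * m + 4))
    ({w | w ≤ RR N m} ∪ {w | ∃ z' < z, w ∈ zoneSet N m cl x z'}) := by
  intro z
  induction z with
  | zero =>
    intro _
    refine ⟨RR N m, le_rfl, RR N m, by omega, (RW.sweep (RR N m) le_rfl).mono ?_⟩
    rintro w (hw | ⟨z', hz', _⟩)
    · exact hw
    · omega
  | succ z ih =>
    intro hz
    obtain ⟨u, hu, T, hT, h'⟩ := (ih (by omega)).zone x (by omega)
    refine ⟨u, hu, T, hT, h'.mono ?_⟩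
    rintro w (hw | ⟨z', hz', hw⟩)
    · exact Or.inl (Or.inl hw)
    · by_cases he : z' = z
      · right; rw [← he]; exact hw
      · exact Or.inl (Or.inr ⟨z', by omega, hw⟩)

theorem fwd (h : SatC N m cl) : CovC N m cl := by
  obtain ⟨x, hx⟩ := h
  obtain ⟨u, hu, T, hT, h⟩ := St.zones (cl := cl) (m := m) x (2 * N) le_rfl
  have h1 : RW N m cl (tt N m) u ({w | w ≤ RR N m} ∪
      {w | ∃ z' < 2 * N, w ∈ zoneSet N m cl x z'}) := h.wait' hT
  obtain ⟨y, y0, y1, -, y3⟩ := h1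
  refine ⟨y, y0, y1, fun v hv => ?_⟩
  by_cases h2 : v ≤ RR N m
  · exact y3 v (Or.inl h2)
  · apply y3
    right
    obtain ⟨ℓ, rfl⟩ := Nat.exists_eq_add_of_le (show RR N m + 1 ≤ v by omega)
    have hℓ : ℓ < RR N m := by omega
    by_cases h3 : ℓ < N
    · -- a variable leaf
      by_cases h4 : x ℓ = true
      · refine ⟨2 * ℓ + 1, by omega, Or.inr (Or.inl ⟨?_, ?_⟩)⟩
        · rw [show (2 * ℓ + 1) / 2 = ℓ by omega, h4]
          simp
        · rw [show (2 * ℓ + 1) / 2 = ℓ by omega]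
      · refine ⟨2 * ℓ, by omega, Or.inr (Or.inl ⟨?_, ?_⟩)⟩
        · rw [show (2 * ℓ) / 2 = ℓ by omega]
          have : (2 * ℓ) % 2 = 0 := by omega
          simpa [this] using h4
        · rw [show (2 * ℓ) / 2 = ℓ by omega]
    · by_cases h4 : ℓ < N + m
      · obtain ⟨c, rfl⟩ := Nat.exists_eq_add_of_le (not_lt.1 h3)
        obtain ⟨i, hi, b, hb, hxb⟩ := hx c (by omega)
        by_cases hbt : b = true
        · subst hbt
          refine ⟨2 * i, by omega, Or.inr (Or.inr ⟨?_, c, by omega, ?_, rfl⟩)⟩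
          · rw [show (2 * i) / 2 = i by omega, hxb]
            have : (2 * i) % 2 = 0 := by omega
            simp [this]
          · rw [show (2 * i) / 2 = i by omega]
            have : (2 * i) % 2 = 0 := by omega
            simpa [this] using hb
        · have hbf : b = false := by simpa using hbt
          subst hbf
          refine ⟨2 * i + 1, by omega, Or.inr (Or.inr ⟨?_, c, by omega, ?_, rfl⟩)⟩
          · rw [show (2 * i + 1) / 2 = i by omega, hxb]
            simp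
          · rw [show (2 * i + 1) / 2 = i by omega]
            have : ¬ ((2 * i + 1) % 2 = 0) := by omega
            simpa [this] using hb
      · obtain ⟨z, rfl⟩ := Nat.exists_eq_add_of_le (not_lt.1 h4)
        exact ⟨z, by unfold RR at hℓ; omega, Or.inl rfl⟩

end fwd


/-! ### Walks give satisfying assignments -/

section bwd

variable {N m : ℕ} {cl : ℕ → ℕ → Bool → Bool}

/-- the last step of the block `k` -/
def sl (N m k : ℕ) : ℕ := k * (2 * RR N m + 1) + 2 * RR N m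

theorem sl_lt {j k : ℕ} (h : sl N m j < sl N m k) : j < k := by
  unfold sl at h
  by_contra hcon
  have := Nat.mul_le_mul_right (2 * RR N m + 1) (not_lt.1 hcon)
  omega

theorem lt_sl {j k : ℕ} (h : j < k) : sl N m j < sl N m k := by
  unfold sl
  have := Nat.mul_le_mul_right (2 * RR N m + 1) (Nat.succ_le_of_lt h)
  rw [Nat.succ_mul] at this
  omega

theorem ev_inv {ℓ τ : ℕ} (hτ : τ < tt N m) (h : ev N m cl ℓ τ = true) :
    ∃ k, τ = sl N m k ∧ pres N m cl ℓ k = true := by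
  unfold ev at h
  simp only [Bool.or_eq_true, Bool.and_eq_true, decide_eq_true_eq] at h
  rcases h with h | ⟨h1, h2⟩
  · omega
  · refine ⟨_, ?_, h2⟩
    unfold sl
    have := Nat.div_add_mod τ (2 * RR N m + 1)
    rw [h1, Nat.mul_comm] at this
    exact this.symm

variable {x : ℕ → ℕ}
  (hx : ∀ τ < tt N m, x (τ + 1) = x τ ∨
    adjb (RR N m) (fun ℓ => ev N m cl ℓ τ) (x τ) (x (τ + 1)) = true)

include hx

/-- the leaf `ℓ` is entered and left only through the spine vertex `ℓ`, in present slots -/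
theorem leaf_enter {ℓ τ : ℕ} (hτ : τ < tt N m)
    (h1 : x τ ≠ RR N m + 1 + ℓ) (h2 : x (τ + 1) = RR N m + 1 + ℓ) :
    x τ = ℓ ∧ ∃ k, τ = sl N m k ∧ pres N m cl ℓ k = true := by
  rcases hx τ hτ with h | h
  · exact absurd (h ▸ h2) h1
  · rw [adjb_iff] at h
    rcases h with ⟨h3, h4⟩ | ⟨h3, h4⟩ | ⟨h3, h4, h5⟩ | ⟨h3, h4, h5⟩
    · omega
    · omega
    · have : x τ = ℓ := by omega
      refine ⟨this, ev_inv hτ ?_⟩
      rw [this] at h5
      exact h5
    · omega

theorem leaf_leave {ℓ τ : ℕ} (hτ : τ < tt N m)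
    (h1 : x τ = RR N m + 1 + ℓ) (h2 : x (τ + 1) ≠ RR N m + 1 + ℓ) :
    ∃ k, τ = sl N m k ∧ pres N m cl ℓ k = true := by
  rcases hx τ hτ with h | h
  · exact absurd (h.trans h1) h2
  · rw [adjb_iff] at h
    rcases h with ⟨h3, h4⟩ | ⟨h3, h4⟩ | ⟨h3, h4, h5⟩ | ⟨h3, h4, h5⟩
    · omega
    · omega
    · omega
    · have : x (τ + 1) = ℓ := by omega
      refine ev_inv hτ ?_
      rw [this] at h5
      exact h5

/-- the entrance before a visit -/
theorem entry (h0 : x 0 = 0) {ℓ : ℕ} (hℓ : ℓ < RR N m) : ∀ τ ≤ tt N m, x τ = RR N m + 1 + ℓ →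
    ∃ a, sl N m a < τ ∧ pres N m cl ℓ a = true ∧ x (sl N m a) = ℓ ∧
      ∀ σ, sl N m a < σ → σ ≤ τ → x σ = RR N m + 1 + ℓ := by
  intro τ
  induction τ with
  | zero => intro _ h; omega
  | succ τ ih =>
    intro hτ h
    by_cases h1 : x τ = RR N m + 1 + ℓ
    · obtain ⟨a, h2, h3, h4, h5⟩ := ih (by omega) h1
      refine ⟨a, by omega, h3, h4, fun σ hσ hσ2 => ?_⟩
      by_cases he : σ = τ + 1
      · rw [he, h]
      · exact h5 σ hσ (by omega)
    · obtain ⟨h2, k, hk, h3⟩ := leaf_enter hx (by omega) h1 h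
      refine ⟨k, by omega, h3, by rw [← hk, h2], fun σ hσ hσ2 => ?_⟩
      have : σ = τ + 1 := by omega
      rw [this, h]

/-- the exit after a visit -/
theorem leave {ℓ : ℕ} (hℓ : ℓ < RR N m) {σ0 : ℕ} (h0 : x σ0 = RR N m + 1 + ℓ) {σ1 : ℕ}
    (h01 : σ0 ≤ σ1) (h1t : σ1 ≤ tt N m) (h1 : x σ1 ≠ RR N m + 1 + ℓ) :
    ∃ b, σ0 ≤ sl N m b ∧ sl N m b < σ1 ∧ pres N m cl ℓ b = true ∧
      ∀ σ, σ0 ≤ σ → σ ≤ sl N m b → x σ = RR N m + 1 + ℓ := by
  classical
  have hex : ∃ σ, σ0 ≤ σ ∧ x σ ≠ RR N m + 1 + ℓ := ⟨σ1, h01, h1⟩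
  obtain ⟨hs1, hs2⟩ := Nat.find_spec hex
  have hle : Nat.find hex ≤ σ1 := Nat.find_min' hex ⟨h01, h1⟩
  have hmin : ∀ σ, σ < Nat.find hex → σ0 ≤ σ → x σ = RR N m + 1 + ℓ := by
    intro σ hσ hσ0
    by_contra hcon
    exact Nat.find_min hex hσ ⟨hσ0, hcon⟩
  generalize Nat.find hex = s at hs1 hs2 hle hmin
  have hne : s ≠ σ0 := by
    rintro rfl
    exact hs2 h0
  obtain ⟨s', rfl⟩ : ∃ s', s = s' + 1 := ⟨s - 1, by omega⟩
  obtain ⟨k, hk, hp⟩ := leaf_leave hx (τ := s') (by omega) (hmin s' (by omega) (by omega)) hs2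
  exact ⟨k, by omega, by omega, hp, fun σ h2 h3 => hmin σ (by omega) h2⟩

omit hx in
theorem pres_X_inv {ℓ k : ℕ} (hℓ : ℓ < N) (h : pres N m cl ℓ k = true) :
    k / (2 * m + 4) / 2 = ℓ ∧ (k % (2 * m + 4) = 0 ∨ k % (2 * m + 4) = 2 * m + 1) := by
  unfold pres at h
  rw [if_pos (by exact hℓ)] at h
  simpa only [Bool.and_eq_true, Bool.or_eq_true, decide_eq_true_eq] using h

omit hx in
theorem pres_Y_inv {c k : ℕ} (hc : c < m) (h : pres N m cl (N + c) k = true) :
    cl c (k / (2 * m + 4) / 2) (decide (k / (2 * m + 4) % 2 = 0)) = true ∧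
      (k % (2 * m + 4) = 1 + 2 * c ∨ k % (2 * m + 4) = 2 + 2 * c) := by
  unfold pres at h
  rw [if_neg (by omega), if_pos (by omega),
    Nat.add_sub_cancel_left, Bool.and_eq_true, Bool.or_eq_true] at h
  refine ⟨?_, by simpa only [decide_eq_true_eq] using h.2⟩
  have h1 := h.1
  by_cases hz : k / (2 * m + 4) % 2 = 0
  · rw [if_pos (by exact hz)] at h1
    rw [decide_eq_true hz]
    exact h1
  · rw [if_neg (by exact hz)] at h1
    rw [decide_eq_false hz]
    exact h1

omit hx in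
theorem pres_S_inv {z k : ℕ} (h : pres N m cl (N + m + z) k = true) :
    k / (2 * m + 4) = z ∧ (k % (2 * m + 4) = 2 * m + 2 ∨ k % (2 * m + 4) = 2 * m + 3) := by
  unfold pres at h
  rw [if_neg (by omega), if_neg (by omega)] at h
  simp only [Bool.and_eq_true, Bool.or_eq_true, decide_eq_true_eq] at h
  exact ⟨by omega, h.2⟩

omit hx in
theorem sl_lt_tt {z o : ℕ} (hz : z < 2 * N) (ho : o < 2 * m + 4) :
    sl N m (z * (2 * m + 4) + o) < tt N m := by
  have h1 : z * (2 * m + 4) + o + 1 ≤ 2 * N * (2 * m + 4) := by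
    have := Nat.mul_le_mul_right (2 * m + 4) (Nat.succ_le_of_lt hz)
    rw [Nat.succ_mul] at this
    omega
  have h2 := Nat.mul_le_mul_right (2 * RR N m + 1) h1
  rw [Nat.add_mul _ 1, Nat.one_mul] at h2
  unfold sl tt
  omega

/-- the checkpoints: in the last block of a zone the agent is not in a leaf of a variable or of a
clause -/
theorem check (h0 : x 0 = 0) (hc : ∀ v < 2 * RR N m + 1, ∃ τ ≤ tt N m, x τ = v) {z ℓ : ℕ}
    (hz : z < 2 * N) (hℓ : ℓ < N + m) :
    x (sl N m (z * (2 * m + 4) + (2 * m + 3))) ≠ RR N m + 1 + ℓ := by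
  have hS : N + m + z < RR N m := by unfold RR; omega
  obtain ⟨τ, hτ, hxτ⟩ := hc (RR N m + 1 + (N + m + z)) (by omega)
  obtain ⟨a, ha1, ha2, ha3, ha4⟩ := entry hx h0 hS τ hτ hxτ
  obtain ⟨hz1, hz2⟩ := pres_S_inv ha2
  have hdm := Nat.div_add_mod a (2 * m + 4)
  rw [hz1, Nat.mul_comm] at hdm
  rcases hz2 with h | h
  · -- entered in the block before
    rw [h] at hdm
    intro hcon
    have hlt : sl N m a < sl N m (z * (2 * m + 4) + (2 * m + 3)) := lt_sl (by omega)
    by_cases hτθ : sl N m (z * (2 * m + 4) + (2 * m + 3)) ≤ τ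
    · have := ha4 _ hlt hτθ
      omega
    · obtain ⟨b, hb1, hb2, hb3, -⟩ := leave hx hS hxτ (le_of_lt (not_le.1 hτθ))
        (sl_lt_tt hz (by omega)).le (by omega)
      obtain ⟨hb4, hb5⟩ := pres_S_inv hb3
      have hdb := Nat.div_add_mod b (2 * m + 4)
      rw [hb4, Nat.mul_comm] at hdb
      have h3 := sl_lt hb2
      have h4 : sl N m a < sl N m b := by omega
      have h5 := sl_lt h4
      omega
  · -- entered in this block
    rw [h] at hdm
    rw [hdm, ha3]
    omega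

/-- a leaf of a variable or a clause is visited within one zone -/
theorem visit (h0 : x 0 = 0) (hc : ∀ v < 2 * RR N m + 1, ∃ τ ≤ tt N m, x τ = v) {ℓ : ℕ}
    (hℓ : ℓ < N + m)
    (hin : ∀ k, pres N m cl ℓ k = true → k / (2 * m + 4) < 2 * N ∧ k % (2 * m + 4) < 2 * m + 2) :
    ∃ z oa ob, z < 2 * N ∧ oa < ob ∧ ob < 2 * m + 2 ∧
      pres N m cl ℓ (z * (2 * m + 4) + oa) = true ∧ pres N m cl ℓ (z * (2 * m + 4) + ob) = true ∧
      ∀ σ, sl N m (z * (2 * m + 4) + oa) < σ → σ ≤ sl N m (z * (2 * m + 4) + ob) →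
        x σ = RR N m + 1 + ℓ := by
  have hS : ℓ < RR N m := by unfold RR; omega
  obtain ⟨τ, hτ, hxτ⟩ := hc (RR N m + 1 + ℓ) (by omega)
  obtain ⟨a, ha1, ha2, ha3, ha4⟩ := entry hx h0 hS τ hτ hxτ
  obtain ⟨hz1, hz2⟩ := hin a ha2
  have hdm := Nat.div_add_mod a (2 * m + 4)
  rw [Nat.mul_comm] at hdm
  have hθ := check hx h0 hc hz1 hℓ
  have hlt : sl N m a < sl N m (a / (2 * m + 4) * (2 * m + 4) + (2 * m + 3)) := lt_sl (by omega)
  have hx1 : x (sl N m a + 1) = RR N m + 1 + ℓ := ha4 _ (by omega) (by omega)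
  obtain ⟨b, hb1, hb2, hb3, hb4⟩ := leave hx hS hx1 (by omega)
    (sl_lt_tt hz1 (by omega)).le hθ
  obtain ⟨hz3, hz4⟩ := hin b hb3
  have hdb := Nat.div_add_mod b (2 * m + 4)
  rw [Nat.mul_comm] at hdb
  have h3 := sl_lt hb2
  have h4 : sl N m a < sl N m b := by omega
  have h5 := sl_lt h4
  have hzz : b / (2 * m + 4) = a / (2 * m + 4) := by
    apply le_antisymm
    · have h6 : b < (a / (2 * m + 4) + 1) * (2 * m + 4) := by
        rw [Nat.succ_mul]; omega
      exact Nat.lt_succ_iff.1 (Nat.div_lt_of_lt_mul (by rw [Nat.mul_comm]; exact h6))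
    · exact Nat.div_le_div_right h5.le
  rw [hzz] at hdb
  refine ⟨a / (2 * m + 4), a % (2 * m + 4), b % (2 * m + 4), hz1, by omega, hz4, ?_, ?_, ?_⟩
  · rw [hdm]; exact ha2
  · rw [hdb]; exact hb3
  · rw [hdm, hdb]
    exact fun σ h7 h8 => hb4 σ (by omega) h8

omit hx in
theorem bwd (hlt : ∀ j i b, cl j i b = true → i < N) (h : CovC N m cl) : SatC N m cl := by
  classical
  obtain ⟨x, h0, hx, hc⟩ := h
  refine ⟨fun i => decide (x (sl N m ((2 * i + 1) * (2 * m + 4)) + 1) = RR N m + 1 + i),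
    fun c hcm => ?_⟩
  obtain ⟨z, oa, ob, hz, hab, hob, hpa, hpb, hvis⟩ := visit hx h0 hc (ℓ := N + c) (by omega)
    (fun k hk => by
      obtain ⟨h1, h2⟩ := pres_Y_inv hcm hk
      have := hlt _ _ _ h1
      constructor <;> omega)
  obtain ⟨hY1, hY2⟩ := pres_Y_inv hcm hpa
  rw [zone_div (by omega)] at hY1
  rw [zone_mod (by omega)] at hY2
  obtain ⟨-, hY3⟩ := pres_Y_inv hcm hpb
  rw [zone_mod (by omega)] at hY3
  have hoa : oa = 1 + 2 * c := by omega
  have hi : z / 2 < N := by omega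
  refine ⟨z / 2, hi, decide (z % 2 = 0), hY1, ?_⟩
  have hxY : x (sl N m (z * (2 * m + 4) + oa) + 1) = RR N m + 1 + (N + c) :=
    hvis _ (by omega) (by have := lt_sl (N := N) (m := m) (show z * (2 * m + 4) + oa <
      z * (2 * m + 4) + ob by omega); omega)
  have hiR : z / 2 < RR N m := by unfold RR; omega
  by_cases hz2 : z % 2 = 0
  · -- positive literal
    rw [decide_eq_true hz2, decide_eq_true_eq]
    obtain ⟨z', oa', ob', hz', hab', hob', hpa', hpb', hvis'⟩ := visit hx h0 hc (ℓ := z / 2)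
      (by omega) (fun k hk => by
        obtain ⟨h1, h2⟩ := pres_X_inv hi hk
        constructor <;> omega)
    obtain ⟨hX1, hX2⟩ := pres_X_inv hi hpa'
    rw [zone_div (by omega)] at hX1
    rw [zone_mod (by omega)] at hX2
    obtain ⟨-, hX3⟩ := pres_X_inv hi hpb'
    rw [zone_mod (by omega)] at hX3
    have hoa' : oa' = 0 := by omega
    have hob' : ob' = 2 * m + 1 := by omega
    have hne : z' ≠ z := by
      rintro rfl
      have h1 := hvis' (sl N m (z' * (2 * m + 4) + oa) + 1)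
        (by have := lt_sl (N := N) (m := m) (show z' * (2 * m + 4) + oa' <
          z' * (2 * m + 4) + oa by omega); omega)
        (by have := lt_sl (N := N) (m := m) (show z' * (2 * m + 4) + oa <
          z' * (2 * m + 4) + ob' by omega); omega)
      omega
    have hz'' : z' = 2 * (z / 2) + 1 := by omega
    subst hoa'
    rw [← hz'']
    have h1 := hvis' (sl N m (z' * (2 * m + 4) + 0) + 1) (by omega)
      (by have := lt_sl (N := N) (m := m) (show z' * (2 * m + 4) + 0 <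
          z' * (2 * m + 4) + ob' by omega); omega)
    exact h1
  · -- negative literal
    rw [decide_eq_false hz2, decide_eq_false_iff_not]
    intro hcon
    have hz'' : z = 2 * (z / 2) + 1 := by omega
    rw [← hz''] at hcon
    have hlt2 : sl N m (z * (2 * m + 4)) < sl N m (z * (2 * m + 4) + oa) := lt_sl (by omega)
    obtain ⟨b, hb1, hb2, hb3, -⟩ := leave hx hiR hcon (σ1 := sl N m (z * (2 * m + 4) + oa) + 1)
      (by omega) (by have := sl_lt_tt (m := m) hz (show oa < 2 * m + 4 by omega); omega) (by omega)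
    obtain ⟨h1, h2⟩ := pres_X_inv hi hb3
    have h3 : sl N m (z * (2 * m + 4)) < sl N m b := by omega
    have h4 := sl_lt h3
    have h5 : b ≤ z * (2 * m + 4) + oa := by
      by_contra hcon2
      have := lt_sl (N := N) (m := m) (not_le.1 hcon2)
      omega
    obtain ⟨o, rfl⟩ := Nat.exists_eq_add_of_le h4.le
    rw [zone_mod (by omega)] at h2
    omega

end bwd

theorem core {N m : ℕ} {cl : ℕ → ℕ → Bool → Bool} (hlt : ∀ j i b, cl j i b = true → i < N) :
    SatC N m cl ↔ CovC N m cl := ⟨fwd, bwd hlt⟩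

end Pool.Agent.T2H97.CE
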