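import Pool.Agent.T2H97.CE.Core
import Pool.Agent.R542.Star.Form
import Pool.Agent.H671R2.PolyAuto
import Pool.Agent.NPC.Classes

/-!
# DMVP on periodic temporal trees: the problem and the instances of the reduction
-/

set_option autoImplicit false

namespace Pool.Agent.T2H97.CE

open Pool.Agent.NPC Pool.Agent.H692R2 Pool.Agent.H673R2 Pool.Agent.NPC.R542.Star
open Pool.Agent.NPC.R542.Cay Pool.Agent.NPC.R542

/-! ### The problem -/

/-- `u` and `v` are adjacent vertices of `H`. -/
def Edge (H : FinGraph) (u v : ℕ) : Prop :=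
  ∃ (hu : u < H.n) (hv : v < H.n), H.graph.Adj ⟨u, hu⟩ ⟨v, hv⟩

/-- The edge `uv` is present at time `τ` in the periodic temporal graph with the list of snapshots
`S`, whose period is the length of the list: it is an edge of the snapshot number `τ mod p`. -/
def Present (S : List FinGraph) (τ u v : ℕ) : Prop :=
  ∃ H, S[τ % S.length]? = some H ∧ Edge H u v

/-- An instance `(T, s, t, S)`: a graph `T`, a start vertex `s`, a deadline `t` and the list `S` of
the snapshots of one period. -/
abbrev Inst : Type := FinGraph × ℕ × ℕ × List FinGraph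

/-- `(T, s, t, S)` is a periodic temporal tree with period `p = |S| ≥ 1`, a start vertex and a
deadline: `T` is a tree, `s` is a vertex of `T`, every snapshot has the vertices of `T` and only
edges of `T`, and every edge of `T` is present at least once per period. -/
def IsPeriodicTree (I : Inst) : Prop :=
  I.1.graph.IsTree ∧ I.2.1 < I.1.n ∧ I.2.2.2 ≠ [] ∧
  (∀ H ∈ I.2.2.2, H.n = I.1.n ∧ ∀ u v, Edge H u v → Edge I.1 u v) ∧
  ∀ u v, Edge I.1 u v → ∃ H ∈ I.2.2.2, Edge H u v

/-- The cover time is at most the deadline `t`: an agent that starts at `s` at time `0`, and in each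
time step waits or crosses an edge that is present, can cover all vertices by time `t`. -/
def CoveredInTime (I : Inst) : Prop :=
  ∃ x : ℕ → ℕ, x 0 = I.2.1 ∧
    (∀ τ < I.2.2.1, x (τ + 1) = x τ ∨ Present I.2.2.2 τ (x τ) (x (τ + 1))) ∧
    ∀ v < I.1.n, ∃ τ ≤ I.2.2.1, x τ = v

/-- Every vertex of `G` has at most three neighbours. -/
def MaxDegreeThree (G : FinGraph) : Prop := ∀ v : Fin G.n, (G.graph.neighborSet v).ncard ≤ 3

/-- There is a path in `G` such that every vertex is on the path or adjacent to a vertex of the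
path. (A tree with this property is a caterpillar.) -/
def HasSpine (G : FinGraph) : Prop :=
  ∃ (k : ℕ) (f : Fin (k + 1) → Fin G.n), Function.Injective f ∧
    (∀ i : Fin k, G.graph.Adj (f i.castSucc) (f i.succ)) ∧
    ∀ v, (∃ i, f i = v) ∨ ∃ i, G.graph.Adj (f i) v

/-- the class of the instances of the reduction -/
def Valid (I : Inst) : Prop := IsPeriodicTree I ∧ MaxDegreeThree I.1 ∧ HasSpine I.1

/-! ### The graphs -/

theorem adjb_symm {R : ℕ} {E : ℕ → Bool} {u v : ℕ} (h : adjb R E u v = true) :
    adjb R E v u = true := by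
  rw [adjb_iff] at h ⊢
  tauto

/-- the caterpillar with the spine `0, ..., R` in which the leaves `ℓ` with `E ℓ` are attached -/
def car (R : ℕ) (E : ℕ → Bool) : FinGraph :=
  ⟨2 * R + 1, { Adj := fun i j => adjb R E i j = true
                symm := ⟨fun _ _ h => adjb_symm h⟩
                loopless := ⟨fun i h => by
                  rw [adjb_iff] at h
                  omega⟩ }⟩

theorem edge_car {R : ℕ} {E : ℕ → Bool} {u v : ℕ} : Edge (car R E) u v ↔ adjb R E u v = true := by
  constructor
  · rintro ⟨_, _, h⟩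
    exact h
  · intro h
    have h' := adjb_iff.1 h
    refine ⟨?_, ?_, h⟩
    · change u < 2 * R + 1
      omega
    · change v < 2 * R + 1
      omega

theorem adjb_mono {R : ℕ} {E : ℕ → Bool} {u v : ℕ} (h : adjb R E u v = true) :
    adjb R (fun _ => true) u v = true := by
  rw [adjb_iff] at h ⊢
  tauto

/-- the full caterpillar is a tree -/
theorem car_tree (R : ℕ) : (car R (fun _ => true)).graph.IsTree := by
  classical
  have hpos : 0 < (car R (fun _ => true)).n := Nat.succ_pos _
  let par : ℕ → ℕ := fun v => if v ≤ R then v - 1 else v - (R + 1)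
  have hpar : ∀ v, v < 2 * R + 1 → v ≠ 0 → par v < v ∧ adjb R (fun _ => true) v (par v) = true := by
    intro v hv hv0
    rw [adjb_iff]
    by_cases h : v ≤ R
    · have e : par v = v - 1 := if_pos h
      rw [e]
      constructor
      · omega
      · omega
    · have e : par v = v - (R + 1) := if_neg h
      rw [e]
      refine ⟨by omega, ?_⟩
      right; right; right
      exact ⟨by omega, by omega, rfl⟩
  have hconn : (car R (fun _ => true)).graph.Connected := by
    rw [SimpleGraph.connected_iff_exists_forall_reachable]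
    refine ⟨⟨0, hpos⟩, ?_⟩
    have key : ∀ v (hv : v < (car R (fun _ => true)).n),
        (car R (fun _ => true)).graph.Reachable ⟨0, hpos⟩ ⟨v, hv⟩ := by
      intro v
      induction v using Nat.strong_induction_on with
      | _ v ih =>
        intro hv
        by_cases hv0 : v = 0
        · subst hv0
          exact SimpleGraph.Reachable.refl _
        · obtain ⟨h1, h2⟩ := hpar v hv hv0
          have h3 := ih (par v) h1 (lt_trans h1 hv)
          refine h3.trans (SimpleGraph.Adj.reachable ?_)
          exact adjb_symm h2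
    exact fun w => key w.1 w.2
  rw [SimpleGraph.isTree_iff_connected_and_card]
  refine ⟨hconn, ?_⟩
  have h1 := hconn.card_vert_le_card_edgeSet_add_one
  have h2 : Nat.card (car R (fun _ => true)).graph.edgeSet ≤
      (Finset.univ.erase (⟨0, hpos⟩ : Fin (car R (fun _ => true)).n)).card := by
    rw [Nat.card_coe_set_eq]
    have hlt : ∀ v : Fin (car R (fun _ => true)).n, par v < (car R (fun _ => true)).n := by
      intro v
      have := v.2
      by_cases h : (v : ℕ) ≤ R
      · have e : par v = v - 1 := if_pos h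
        rw [e]; omega
      · have e : par v = v - (R + 1) := if_neg h
        rw [e]; omega
    have : (car R (fun _ => true)).graph.edgeSet ⊆
        ↑((Finset.univ.erase (⟨0, hpos⟩ : Fin (car R (fun _ => true)).n)).image
          fun v : Fin (car R (fun _ => true)).n =>
            s(v, (⟨par v, hlt v⟩ : Fin (car R (fun _ => true)).n))) := by
      intro e he
      induction e with
      | _ a b =>
        rw [SimpleGraph.mem_edgeSet] at he
        have he' : adjb R (fun _ => true) a b = true := he
        rw [adjb_iff] at he'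
        rw [Finset.mem_coe, Finset.mem_image]
        rcases he' with ⟨h3, h4⟩ | ⟨h3, h4⟩ | ⟨h3, h4, _⟩ | ⟨h3, h4, _⟩
        · refine ⟨b, Finset.mem_erase.2 ⟨fun h => ?_, Finset.mem_univ _⟩, ?_⟩
          · have := congrArg Fin.val h
            simp only at this
            omega
          · have e : par b = b - 1 := if_pos h4
            rw [Sym2.eq_swap]
            congr 2
            change par b = a
            omega
        · refine ⟨a, Finset.mem_erase.2 ⟨fun h => ?_, Finset.mem_univ _⟩, ?_⟩
          · have := congrArg Fin.val h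
            simp only at this
            omega
          · have e : par a = a - 1 := if_pos h4
            congr 2
            change par a = b
            omega
        · refine ⟨b, Finset.mem_erase.2 ⟨fun h => ?_, Finset.mem_univ _⟩, ?_⟩
          · have := congrArg Fin.val h
            simp only at this
            omega
          · have e : par b = b - (R + 1) := if_neg (by omega)
            rw [Sym2.eq_swap]
            congr 2
            change par b = a
            omega
        · refine ⟨a, Finset.mem_erase.2 ⟨fun h => ?_, Finset.mem_univ _⟩, ?_⟩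
          · have := congrArg Fin.val h
            simp only at this
            omega
          · have e : par a = a - (R + 1) := if_neg (by omega)
            congr 2
            change par a = b
            omega
    refine (Set.ncard_le_ncard this (Finset.finite_toSet _)).trans ?_
    rw [Set.ncard_coe_finset]
    exact Finset.card_image_le
  have h3 : (Finset.univ.erase (⟨0, hpos⟩ : Fin (car R (fun _ => true)).n)).card =
      Fintype.card (Fin (car R (fun _ => true)).n) - 1 := by
    rw [Finset.card_erase_of_mem (Finset.mem_univ _), Finset.card_univ]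
  have h4 : 0 < Fintype.card (Fin (car R (fun _ => true)).n) := Fintype.card_pos_iff.2 ⟨⟨0, hpos⟩⟩
  have h5 : Nat.card (Fin (car R (fun _ => true)).n) = Fintype.card (Fin (car R (fun _ => true)).n) :=
    Nat.card_eq_fintype_card
  omega

theorem car_deg (R : ℕ) : MaxDegreeThree (car R (fun _ => true)) := by
  classical
  intro v
  have hsub : (fun w : Fin (car R (fun _ => true)).n => (w : ℕ)) ''
      ((car R (fun _ => true)).graph.neighborSet v) ⊆
      (({(v : ℕ) + 1, if (v : ℕ) ≤ R then (v : ℕ) - 1 else (v : ℕ) - (R + 1), R + 1 + v} : Finset ℕ) :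
        Set ℕ) := by
    rintro _ ⟨w, hw, rfl⟩
    have hw' : adjb R (fun _ => true) v w = true := hw
    rw [adjb_iff] at hw'
    rw [Finset.mem_coe, Finset.mem_insert, Finset.mem_insert, Finset.mem_singleton]
    simp only
    rcases hw' with ⟨h3, h4⟩ | ⟨h3, h4⟩ | ⟨h3, h4, _⟩ | ⟨h3, h4, _⟩
    · exact Or.inl h3.symm
    · right; left
      rw [if_pos h4]
      omega
    · exact Or.inr (Or.inr h3)
    · right; left
      rw [if_neg (by omega)]
      omega
  rw [← Set.ncard_image_of_injective _ Fin.val_injective]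
  refine (Set.ncard_le_ncard hsub (Finset.finite_toSet _)).trans ?_
  rw [Set.ncard_coe_finset]
  exact Finset.card_le_three

theorem car_spine (R : ℕ) : HasSpine (car R (fun _ => true)) := by
  have hn : (car R (fun _ => true)).n = 2 * R + 1 := rfl
  refine ⟨R, fun i => ⟨i, by have := i.2; omega⟩, ?_, ?_, ?_⟩
  · intro i j h
    have := congrArg Fin.val h
    exact Fin.ext this
  · intro i
    change adjb R (fun _ => true) i.castSucc i.succ = true
    rw [adjb_iff]
    left
    have := i.2
    simp only [Fin.val_castSucc, Fin.val_succ]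
    exact ⟨trivial, by omega⟩
  · intro v
    by_cases h : (v : ℕ) ≤ R
    · left
      exact ⟨⟨v, by omega⟩, Fin.ext rfl⟩
    · right
      have hv := v.2
      refine ⟨⟨(v : ℕ) - (R + 1), by omega⟩, ?_⟩
      change adjb R (fun _ => true) ((v : ℕ) - (R + 1)) v = true
      rw [adjb_iff]
      right; right; left
      exact ⟨by omega, by omega, rfl⟩

/-! ### The instances -/

/-- the instance of a formula -/
def inst (φ : F3) : Inst :=
  (car (RR (3 * φ.length) φ.length) (fun _ => true), 0, tt (3 * φ.length) φ.length,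
    (List.range (tt (3 * φ.length) φ.length + 1)).map (fun τ =>
      car (RR (3 * φ.length) φ.length) (fun ℓ => ev (3 * φ.length) φ.length (cl φ) ℓ τ)))

theorem present_inst (φ : F3) {τ u v : ℕ} (hτ : τ < tt (3 * φ.length) φ.length) :
    Present (inst φ).2.2.2 τ u v ↔ adjb (RR (3 * φ.length) φ.length)
      (fun ℓ => ev (3 * φ.length) φ.length (cl φ) ℓ τ) u v = true := by
  have hlen : (inst φ).2.2.2.length = tt (3 * φ.length) φ.length + 1 := by
    simp [inst]
  unfold Present
  rw [hlen, Nat.mod_eq_of_lt (by omega)]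
  have hget : (inst φ).2.2.2[τ]? = some (car (RR (3 * φ.length) φ.length)
      (fun ℓ => ev (3 * φ.length) φ.length (cl φ) ℓ τ)) := by
    simp only [inst]
    rw [List.getElem?_map, List.getElem?_range (by omega)]
    rfl
  rw [hget]
  constructor
  · rintro ⟨H, hH, h⟩
    rw [← Option.some.inj hH] at h
    exact edge_car.1 h
  · intro h
    exact ⟨_, rfl, edge_car.2 h⟩

theorem inst_covers (φ : F3) : CoveredInTime (inst φ) ↔ CovC (3 * φ.length) φ.length (cl φ) := by
  refine exists_congr fun x => and_congr Iff.rfl (and_congr ?_ Iff.rfl)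
  refine forall_congr' fun τ => forall_congr' fun hτ => or_congr Iff.rfl ?_
  exact present_inst φ hτ

theorem inst_valid (φ : F3) : Valid (inst φ) := by
  refine ⟨⟨car_tree _, Nat.succ_pos _, ?_, ?_, ?_⟩, car_deg _, car_spine _⟩
  · simp [inst]
  · intro H hH
    obtain ⟨τ, -, rfl⟩ := List.mem_map.1 hH
    refine ⟨rfl, fun u v h => ?_⟩
    exact edge_car.2 (adjb_mono (edge_car.1 h))
  · intro u v h
    refine ⟨_, List.mem_map.2 ⟨tt (3 * φ.length) φ.length, List.mem_range.2 (Nat.lt_succ_self _),
      rfl⟩, ?_⟩
    have h' := edge_car.1 h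
    rw [edge_car]
    have e : (fun ℓ => ev (3 * φ.length) φ.length (cl φ) ℓ (tt (3 * φ.length) φ.length)) =
        fun _ => true := by
      funext ℓ
      unfold ev
      simp
    rw [e]
    exact h'

/-! ### Computation -/

section

variable {α : Type} [TEnc α]

theorem poly_car {R : α → ℕ} {E : α → ℕ → Bool} (hR : UPoly R)
    (hE : Poly (fun p : α × ℕ => E p.1 p.2)) : Poly (fun a => car (R a) (E a)) := by
  refine poly_finGraph (N := fun a => 2 * R a + 1) (b := fun a i j => adjb (R a) (E a) i j)
    (UPoly.add (UPoly.mul (UPoly.const 2) hR) (UPoly.const 1)) ?_ (fun a i j => Iff.rfl)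
  have ea : Poly (fun p : (α × ℕ) × ℕ => p.1.1) := Poly.fst (Poly.fst Poly.id)
  have ei : Poly (fun p : (α × ℕ) × ℕ => p.1.2) := Poly.snd (Poly.fst Poly.id)
  have ej : Poly (fun p : (α × ℕ) × ℕ => p.2) := Poly.snd Poly.id
  have eR : Poly (fun p : (α × ℕ) × ℕ => R p.1.1) := Poly.comp (g := R) hR.toPoly ea
  have eEi : Poly (fun p : (α × ℕ) × ℕ => E p.1.1 p.1.2) :=
    Poly.comp (g := fun p : α × ℕ => E p.1 p.2) hE (Poly.pair ea ei)
  have eEj : Poly (fun p : (α × ℕ) × ℕ => E p.1.1 p.2) :=
    Poly.comp (g := fun p : α × ℕ => E p.1 p.2) hE (Poly.pair ea ej)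
  have c1 : Poly (fun _ : (α × ℕ) × ℕ => (1 : ℕ)) := NPC.Poly.const 1
  unfold adjb
  exact Poly.or (Poly.and (Poly.decide_eq (Poly.add ei c1) ej) (Poly.decide_le ej eR))
    (Poly.or (Poly.and (Poly.decide_eq (Poly.add ej c1) ei) (Poly.decide_le ei eR))
      (Poly.or (Poly.and (Poly.decide_eq ej (Poly.add (Poly.add eR c1) ei))
          (Poly.and (Poly.decide_lt ei eR) eEi))
        (Poly.and (Poly.decide_eq ei (Poly.add (Poly.add eR c1) ej))
          (Poly.and (Poly.decide_lt ej eR) eEj))))

theorem upoly_RR {φ : α → F3} (hφ : Poly φ) :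
    UPoly (fun a => RR (3 * (φ a).length) (φ a).length) :=
  UPoly.add (UPoly.mul (UPoly.const 3) (upoly_3len hφ)) (upoly_len hφ)

theorem upoly_M {φ : α → F3} (hφ : Poly φ) : UPoly (fun a => 2 * (φ a).length + 4) :=
  UPoly.add (UPoly.mul (UPoly.const 2) (upoly_len hφ)) (UPoly.const 4)

theorem upoly_B {φ : α → F3} (hφ : Poly φ) :
    UPoly (fun a => 2 * RR (3 * (φ a).length) (φ a).length + 1) :=
  UPoly.add (UPoly.mul (UPoly.const 2) (upoly_RR hφ)) (UPoly.const 1)

theorem upoly_tt {φ : α → F3} (hφ : Poly φ) :
    UPoly (fun a => tt (3 * (φ a).length) (φ a).length) :=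
  UPoly.add (UPoly.mul (UPoly.mul (UPoly.mul (UPoly.const 2) (upoly_3len hφ)) (upoly_M hφ))
    (upoly_B hφ)) (upoly_RR hφ)

theorem poly_pres {φ : α → F3} {ℓ k : α → ℕ} (hφ : Poly φ) (hℓ : Poly ℓ) (hk : Poly k) :
    Poly (fun a => pres (3 * (φ a).length) (φ a).length (cl (φ a)) (ℓ a) (k a)) := by
  have hN : Poly (fun a => 3 * (φ a).length) := (upoly_3len hφ).toPoly
  have hm : Poly (fun a => (φ a).length) := (upoly_len hφ).toPoly
  have hM : Poly (fun a => 2 * (φ a).length + 4) := (upoly_M hφ).toPoly
  have hz : Poly (fun a => k a / (2 * (φ a).length + 4)) := Poly.div hk hM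
  have ho : Poly (fun a => k a % (2 * (φ a).length + 4)) := Poly.mod hk hM
  have hi : Poly (fun a => k a / (2 * (φ a).length + 4) / 2) := Poly.div hz (NPC.Poly.const 2)
  have h2m : Poly (fun a => 2 * (φ a).length) := Poly.mul (NPC.Poly.const 2) hm
  have hj : Poly (fun a => ℓ a - 3 * (φ a).length) := Poly.sub hℓ hN
  have h2j : Poly (fun a => 2 * (ℓ a - 3 * (φ a).length)) := Poly.mul (NPC.Poly.const 2) hj
  unfold pres
  refine Poly.ite (Poly.decide_lt hℓ hN) ?_ (Poly.ite (Poly.decide_lt hℓ (Poly.add hN hm)) ?_ ?_)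
  · exact Poly.and (Poly.decide_eq hi hℓ) (Poly.or (Poly.decide_eq ho (NPC.Poly.const 0))
      (Poly.decide_eq ho (Poly.add h2m (NPC.Poly.const 1))))
  · exact Poly.and (Poly.ite (Poly.decide_eq (Poly.mod hz (NPC.Poly.const 2)) (NPC.Poly.const 0))
      (poly_cl true hφ hj hi) (poly_cl false hφ hj hi))
      (Poly.or (Poly.decide_eq ho (Poly.add (NPC.Poly.const 1) h2j))
        (Poly.decide_eq ho (Poly.add (NPC.Poly.const 2) h2j)))
  · exact Poly.and (Poly.decide_eq hz (Poly.sub hj hm))
      (Poly.or (Poly.decide_eq ho (Poly.add h2m (NPC.Poly.const 2)))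
        (Poly.decide_eq ho (Poly.add h2m (NPC.Poly.const 3))))

theorem poly_ev {φ : α → F3} {ℓ τ : α → ℕ} (hφ : Poly φ) (hℓ : Poly ℓ) (hτ : Poly τ) :
    Poly (fun a => ev (3 * (φ a).length) (φ a).length (cl (φ a)) (ℓ a) (τ a)) := by
  have hB : Poly (fun a => 2 * RR (3 * (φ a).length) (φ a).length + 1) := (upoly_B hφ).toPoly
  have h2R : Poly (fun a => 2 * RR (3 * (φ a).length) (φ a).length) :=
    Poly.mul (NPC.Poly.const 2) (upoly_RR hφ).toPoly
  unfold ev
  exact Poly.or (Poly.decide_eq hτ (upoly_tt hφ).toPoly)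
    (Poly.and (Poly.decide_eq (Poly.mod hτ hB) h2R) (poly_pres hφ hℓ (Poly.div hτ hB)))

theorem poly_inst : Poly inst := by
  have hφ : Poly (fun φ : F3 => φ) := Poly.id
  have hfull : Poly (fun φ : F3 => car (RR (3 * φ.length) φ.length) (fun _ => true)) :=
    poly_car (E := fun _ _ => true) (upoly_RR hφ) (NPC.Poly.const true)
  have ht : UPoly (fun φ : F3 => tt (3 * φ.length) φ.length + 1) :=
    UPoly.add (upoly_tt hφ) (UPoly.const 1)
  have hsnap : Poly (fun p : F3 × ℕ => car (RR (3 * p.1.length) p.1.length)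
      (fun ℓ => ev (3 * p.1.length) p.1.length (cl p.1) ℓ p.2)) := by
    have e1 : UPoly (fun p : F3 × ℕ => RR (3 * p.1.length) p.1.length) :=
      UPoly.comp (n := fun φ : F3 => RR (3 * φ.length) φ.length) (upoly_RR hφ) (Poly.fst Poly.id)
    have e2 : Poly (fun p : (F3 × ℕ) × ℕ =>
        ev (3 * p.1.1.length) p.1.1.length (cl p.1.1) p.2 p.1.2) :=
      poly_ev (Poly.fst (Poly.fst Poly.id)) (Poly.snd Poly.id) (Poly.snd (Poly.fst Poly.id))
    exact poly_car (E := fun (p : F3 × ℕ) ℓ => ev (3 * p.1.length) p.1.length (cl p.1) ℓ p.2) e1 e2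
  have hmap : Poly (fun φ : F3 => (List.range (tt (3 * φ.length) φ.length + 1)).map (fun τ =>
      car (RR (3 * φ.length) φ.length)
        (fun ℓ => ev (3 * φ.length) φ.length (cl φ) ℓ τ))) :=
    NPC.Poly.map (l := fun φ : F3 => List.range (tt (3 * φ.length) φ.length + 1))
      (F := fun φ τ => car (RR (3 * φ.length) φ.length)
        (fun ℓ => ev (3 * φ.length) φ.length (cl φ) ℓ τ)) (UPoly.range ht) hsnap
  exact Poly.pair hfull (Poly.pair (NPC.Poly.const 0) (Poly.pair (upoly_tt hφ).toPoly hmap))

end

/-- **Hardness.** -/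
theorem hard : NPHardOn Valid CoveredInTime :=
  npHardOn_of hardI_SAT3.toHardPr poly_inst (fun φ _ => inst_valid φ) (fun φ _ => by
    rw [inst_covers, satB_iff]
    exact core (cl_lt φ))

end Pool.Agent.T2H97.CE
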