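import Pool.Agent.T2H97.CE.Main
import Pool.Agent.H670R2.Best

/-!
# DMVP on periodic temporal trees: the cover time
-/

set_option autoImplicit false

namespace Pool.Agent.T2H97.CE

open Pool.Agent.NPC Pool.Agent.H692R2 Pool.Agent.H673R2 Pool.Agent.NPC.R542.Star
open Pool.Agent.NPC.R542.Cay Pool.Agent.NPC.R542

/-- `c` is the cover time of the periodic temporal tree `(T, s, S)`: the least time by which an
agent can cover all vertices. -/
def IsCoverTime (T : FinGraph) (s : ℕ) (S : List FinGraph) (c : ℕ) : Prop :=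
  IsLeast {t : ℕ | CoveredInTime (T, s, t, S)} c

/-! ### The cover time exists -/

/-- there is a movement to `v` at time `τ` that has covered the set `C` -/
def GW (s : ℕ) (S : List FinGraph) (τ v : ℕ) (C : Set ℕ) : Prop :=
  ∃ x : ℕ → ℕ, x 0 = s ∧ (∀ σ < τ, x (σ + 1) = x σ ∨ Present S σ (x σ) (x (σ + 1))) ∧
    x τ = v ∧ ∀ w ∈ C, ∃ σ ≤ τ, x σ = w

theorem GW.step {s τ u v : ℕ} {S : List FinGraph} {C : Set ℕ} (h : GW s S τ u C)
    (hv : v = u ∨ Present S τ u v) : GW s S (τ + 1) v (insert v C) := by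
  obtain ⟨x, h0, h1, h2, h3⟩ := h
  refine ⟨fun σ => if σ ≤ τ then x σ else v, by simp [h0], ?_, by simp, ?_⟩
  · intro σ hσ
    by_cases hs : σ < τ
    · have e1 : (if σ + 1 ≤ τ then x (σ + 1) else v) = x (σ + 1) := if_pos (by omega)
      have e2 : (if σ ≤ τ then x σ else v) = x σ := if_pos (by omega)
      simp only [e1, e2]
      exact h1 σ hs
    · have hs' : σ = τ := by omega
      subst hs'
      have e1 : (if σ + 1 ≤ σ then x (σ + 1) else v) = v := if_neg (by omega)
      have e2 : (if σ ≤ σ then x σ else v) = u := by rw [if_pos le_rfl, h2]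
      simp only [e1, e2]
      exact hv
  · intro w hw
    rcases hw with rfl | hw
    · exact ⟨τ + 1, le_rfl, by simp⟩
    · obtain ⟨σ, hσ, rfl⟩ := h3 w hw
      exact ⟨σ, by omega, by simp [hσ]⟩

theorem GW.mono {s τ u : ℕ} {S : List FinGraph} {C C' : Set ℕ} (h : GW s S τ u C)
    (hC : C' ⊆ C) : GW s S τ u C' := by
  obtain ⟨x, h0, h1, h2, h3⟩ := h
  exact ⟨x, h0, h1, h2, fun w hw => h3 w (hC hw)⟩

theorem GW.wait {s τ u : ℕ} {S : List FinGraph} {C : Set ℕ} (h : GW s S τ u C) :
    ∀ d, GW s S (τ + d) u C := by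
  intro d
  induction d with
  | zero => exact h
  | succ d ih => exact (ih.step (Or.inl rfl)).mono (Set.subset_insert _ _)

theorem GW.cross {s τ u v : ℕ} {S : List FinGraph} {C : Set ℕ} (h : GW s S τ u C)
    (hS : S ≠ []) (hE : ∃ H ∈ S, Edge H u v) : ∃ τ', GW s S τ' v (insert v C) := by
  obtain ⟨H, hH, hE⟩ := hE
  obtain ⟨j, hj, hjH⟩ := List.mem_iff_getElem.1 hH
  have hp : 0 < S.length := List.length_pos_iff.2 hS
  have h1 : τ ≤ τ * S.length := Nat.le_mul_of_pos_right _ hp
  obtain ⟨d, hd⟩ := Nat.exists_eq_add_of_le (show τ ≤ j + τ * S.length by omega)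
  have h2 : GW s S (j + τ * S.length) u C := by
    rw [hd]
    exact h.wait d
  refine ⟨_, h2.step (Or.inr ⟨H, ?_, hE⟩)⟩
  rw [Nat.add_mul_mod_self_right, Nat.mod_eq_of_lt hj, List.getElem?_eq_getElem hj, hjH]

theorem GW.walk {T : FinGraph} {s : ℕ} {S : List FinGraph} (hS : S ≠ [])
    (hE : ∀ u v, Edge T u v → ∃ H ∈ S, Edge H u v) {a b : Fin T.n} (p : T.graph.Walk a b) :
    ∀ {τ : ℕ} {C : Set ℕ}, GW s S τ a C → ∃ τ', GW s S τ' b C := by
  induction p with
  | nil => intro τ C h; exact ⟨τ, h⟩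
  | cons h p ih =>
    intro τ C h'
    obtain ⟨τ', h2⟩ := h'.cross hS (hE _ _ ⟨Fin.is_lt _, Fin.is_lt _, h⟩)
    exact ih (h2.mono (Set.subset_insert _ _))

theorem exists_cover {T : FinGraph} {s t : ℕ} {S : List FinGraph}
    (h : IsPeriodicTree (T, s, t, S)) : ∃ t', CoveredInTime (T, s, t', S) := by
  obtain ⟨h1, h2, h3, -, h5⟩ := h
  simp only at h1 h2 h3 h5
  have key : ∀ k ≤ T.n, ∃ (τ : ℕ) (v : Fin T.n), GW s S τ v {w | w < k} := by
    intro k
    induction k with
    | zero =>
      intro _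
      refine ⟨0, ⟨s, h2⟩, fun _ => s, rfl, fun σ hσ => absurd hσ (by omega), rfl, fun w hw => ?_⟩
      have : w < 0 := hw
      omega
    | succ k ih =>
      intro hk
      obtain ⟨τ, v, h6⟩ := ih (by omega)
      obtain ⟨p⟩ := h1.connected.preconnected v ⟨k, hk⟩
      obtain ⟨τ', h7⟩ := GW.walk h3 h5 p h6
      refine ⟨τ' + 1, ⟨k, hk⟩, (h7.step (Or.inl rfl)).mono ?_⟩
      intro w hw
      have hw' : w < k + 1 := hw
      rcases Nat.lt_or_ge w k with h8 | h8
      · exact Or.inr h8
      · left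
        show w = k
        omega
  obtain ⟨τ, v, x, x0, x1, -, x3⟩ := key T.n le_rfl
  exact ⟨τ, x, x0, x1, x3⟩

theorem covered_mono {T : FinGraph} {s t t' : ℕ} {S : List FinGraph} (ht : t ≤ t')
    (h : CoveredInTime (T, s, t, S)) : CoveredInTime (T, s, t', S) := by
  obtain ⟨x, x0, x1, x2⟩ := h
  simp only at x0 x1 x2
  refine ⟨fun σ => x (min σ t), ?_, ?_, ?_⟩
  · simp [x0]
  · intro τ hτ
    by_cases h : τ < t
    · have e1 : min (τ + 1) t = τ + 1 := by omega
      have e2 : min τ t = τ := by omega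
      simp only [e1, e2]
      exact x1 τ h
    · left
      have e1 : min (τ + 1) t = t := by omega
      have e2 : min τ t = t := by omega
      simp only [e1, e2]
  · intro v hv
    obtain ⟨τ, hτ, hx⟩ := x2 v hv
    refine ⟨τ, le_trans hτ ht, ?_⟩
    have e2 : min τ t = τ := by omega
    simp only [e2]
    exact hx

theorem exists_coverTime {T : FinGraph} {s t : ℕ} {S : List FinGraph}
    (h : IsPeriodicTree (T, s, t, S)) : ∃ c, IsCoverTime T s S c := by
  classical
  have hex := exists_cover h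
  exact ⟨Nat.find hex, Nat.find_spec hex, fun t ht => Nat.find_min' hex ht⟩

/-! ### Collapse -/

/-- a polynomial-time algorithm for the decision version gives `P = NP` -/
theorem decide_collapse {A : List Bool → List Bool} (hA : PolyTime A)
    (h : ∀ I : Inst, Valid I → (A (bits I) = [true] ↔ CoveredInTime I)) :
    ∀ L, InNP L → InP L := by
  intro L hL
  obtain ⟨f, hf, hv, hLf⟩ := hard L hL
  exact ⟨fun x => A (bits (f x)), Pool.Agent.H642R2.TMSim.polyTime_comp hA hf,
    fun x => (hLf x).trans (h _ (hv x)).symm⟩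

/-- a polynomial-time algorithm that computes the cover time gives `P = NP` -/
theorem compute_collapse {A : List Bool → List Bool} (hA : PolyTime A)
    (h : ∀ (T : FinGraph) (s : ℕ) (S : List FinGraph), Valid (T, s, 0, S) →
      ∀ c, IsCoverTime T s S c → A (bits (T, s, S)) = bits c) :
    ∀ L, InNP L → InP L := by
  have hφ : Poly (fun φ : F3 => φ) := Poly.id
  -- the decision function on formulas
  let d : F3 → Bool := fun φ => decide ((unbits ℕ (A (bits ((inst φ).1, (inst φ).2.1,
    (inst φ).2.2.2)))).getD 0 ≤ tt (3 * φ.length) φ.length)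
  have h1 : Poly (fun φ : F3 => ((inst φ).1, (inst φ).2.1, (inst φ).2.2.2)) :=
    Poly.pair (Poly.fst poly_inst) (Poly.pair (Poly.fst (Poly.snd poly_inst))
      (Poly.snd (Poly.snd (Poly.snd poly_inst))))
  have h2 : Poly (fun φ : F3 => bits ((inst φ).1, (inst φ).2.1, (inst φ).2.2.2)) :=
    Poly.comp (g := fun a : FinGraph × ℕ × List FinGraph => bits a) NPC.H670R2.poly_bits h1
  have h3 : Poly (fun φ : F3 => A (bits ((inst φ).1, (inst φ).2.1, (inst φ).2.2.2))) :=
    Poly.comp (g := A) (NPC.H670R2.poly_raw hA) h2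
  have h4 : Poly (fun φ : F3 => (unbits ℕ (A (bits ((inst φ).1, (inst φ).2.1,
      (inst φ).2.2.2)))).getD 0) :=
    Poly.optGetD (Poly.comp (g := fun y : List Bool => unbits ℕ y) poly_unbits h3)
      (NPC.Poly.const 0)
  have hd : Poly d := NPC.Poly.decide_le h4 (upoly_tt hφ).toPoly
  have hsat : ∀ φ : F3, SAT3 φ ↔ d φ = true := by
    intro φ
    have hv : Valid (inst φ) := inst_valid φ
    have hv0 : Valid ((inst φ).1, (inst φ).2.1, 0, (inst φ).2.2.2) := hv
    obtain ⟨c, hc⟩ := exists_coverTime hv0.1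
    have e : A (bits ((inst φ).1, (inst φ).2.1, (inst φ).2.2.2)) = bits c := h _ _ _ hv0 c hc
    have h5 : SAT3 φ ↔ CoveredInTime (inst φ) := by
      rw [inst_covers, satB_iff]
      exact core (cl_lt φ)
    rw [h5]
    simp only [d, e, unbits_bits, Option.getD_some, decide_eq_true_eq]
    constructor
    · intro h6
      exact hc.2 h6
    · intro h6
      exact covered_mono h6 hc.1
  exact npHard_SAT3.collapse hd hsat

/-! ### Sizes -/

theorem sz_finGraph_le (G : FinGraph) : sz G ≤ G.n * (4 * G.n + 2) + 1 := by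
  have h0 : sz G = sz G.matrix := rfl
  have hlen : G.matrix.length = G.n := by simp [FinGraph.matrix]
  rw [h0]
  refine (sz_le_length_mul G.matrix (4 * G.n + 1) fun x hx => ?_).trans ?_
  · unfold FinGraph.matrix at hx
    rw [List.mem_ofFn] at hx
    obtain ⟨i, rfl⟩ := hx
    refine (sz_listBool_le _).trans ?_
    simp
  · rw [hlen]

theorem n_le_sz (G : FinGraph) : G.n ≤ sz G := by
  have h0 : sz G = sz G.matrix := rfl
  have hlen : G.matrix.length = G.n := by simp [FinGraph.matrix]
  have : ∀ l : List (List Bool), l.length ≤ sz l := by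
    intro l
    induction l with
    | nil => simp
    | cons a l ih =>
      rw [sz_list_cons, List.length_cons]
      omega
  have h := this G.matrix
  rw [h0]
  rwa [hlen] at h

/-- the length of the code of an instance is polynomially related to the number of vertices, the
period and the number of binary digits of the deadline -/
theorem length_bits : ∃ q : Polynomial ℕ, ∀ I : Inst, IsPeriodicTree I →
    I.1.n ≤ (bits I).length ∧ I.2.2.2.length ≤ (bits I).length ∧
    (bits I).length ≤ q.eval (I.1.n + I.2.2.2.length + I.2.2.1.size) := by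
  refine ⟨(Polynomial.X + 1) * (Polynomial.X * (4 * Polynomial.X + 2) + 2) + 8 * Polynomial.X + 6,
    fun I hI => ?_⟩
  obtain ⟨T, s, t, S⟩ := I
  obtain ⟨-, h2, -, h4, -⟩ := hI
  simp only at h2 h4
  have h0 : (bits (T, s, t, S)).length = sz (T, s, t, S) := rfl
  rw [h0]
  simp only [sz_pair]
  have hgen : ∀ l : List FinGraph, l.length ≤ sz l := by
    intro l
    induction l with
    | nil => simp
    | cons a l ih =>
      rw [sz_list_cons, List.length_cons]
      omega
  have hS : S.length ≤ sz S := hgen S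
  have hT := n_le_sz T
  refine ⟨by omega, by omega, ?_⟩
  have e1 := sz_finGraph_le T
  have e2 : sz s ≤ 4 * T.n + 1 := by
    refine (sz_nat_le s).trans ?_
    have : s.size ≤ T.n := (Nat.size_le.2 (lt_of_lt_of_le h2 Nat.lt_two_pow_self.le))
    omega
  have e3 := sz_nat_le t
  have e4 : sz S ≤ S.length * (T.n * (4 * T.n + 2) + 1 + 1) + 1 := by
    refine sz_le_length_mul S (T.n * (4 * T.n + 2) + 1) fun H hH => ?_
    have e5 := sz_finGraph_le H
    rw [(h4 H hH).1] at e5
    exact e5
  simp only [Polynomial.eval_add, Polynomial.eval_mul, Polynomial.eval_X, Polynomial.eval_one,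
    Polynomial.eval_ofNat]
  generalize hN : T.n = n at *
  generalize hp : S.length = p at *
  generalize hts : t.size = b at *
  have e6 : n * (4 * n + 2) ≤ (n + p + b) * (4 * (n + p + b) + 2) :=
    Nat.mul_le_mul (by omega) (by omega)
  have e7 : p * (n * (4 * n + 2) + 1 + 1) ≤
      (n + p + b) * ((n + p + b) * (4 * (n + p + b) + 2) + 2) :=
    Nat.mul_le_mul (by omega) (by omega)
  have e8 : (n + p + b + 1) * ((n + p + b) * (4 * (n + p + b) + 2) + 2) =
    (n + p + b) * ((n + p + b) * (4 * (n + p + b) + 2) + 2) +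
      ((n + p + b) * (4 * (n + p + b) + 2) + 2) := by ring
  omega

end Pool.Agent.T2H97.CE
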